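import Mathlib
import Pool.Agent.TH330.RogersC
import Pool.Agent.Results.MP_6b55e5_an.RogersQ2

/-!
# Rogers' first question on strip coverings of Besicovitch sets: negative answer

Let `C` be the compact null set of reals whose base eight digits are all at most three, and let
`F = {(x, y) : 0 ≤ x ≤ 1, y - x² ∈ C}`, a compact null set. The natural measure on `F` gives mass
at most `448 w` to every strip of width `w`: the set `C` has dimension `2/3 > 1/2`, and the curvature
of the parabolas `y = x² + c` takes care of the direction of the strip. Hence the strips of any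
covering of `F` have total width at least `1/448`. The same holds for every set containing `F`, in
particular for `B ∪ F`, where `B` is any Besicovitch set.
-/

set_option autoImplicit false

open MeasureTheory Set

namespace Pool.Agent.Results.MP_6b55e5_an.RogersQ1

open Pool.Agent.TH330.Rogers
open Pool.Agent.Results.MP_6b55e5_an.RogersQ2 (Plane IsStrip IsBesicovitch HasStripCover)

/-- closure of the set of values of `g` -/
def CC : Set ℝ := closure (g '' Ico 0 1)

theorem CC_sub : CC ⊆ Icc 0 1 := by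
  apply closure_minimal _ isClosed_Icc
  rintro _ ⟨v, -, rfl⟩
  exact ⟨g_nonneg v, g_le_one v⟩

/-- the finite set of possible partial sums -/
noncomputable def VV (n : ℕ) : Finset ℝ :=
  Finset.univ.image (fun f : Fin n → Fin 4 => ∑ k : Fin n, ((f k : ℕ) : ℝ) * (1 / 8 : ℝ) ^ (k.1 + 1))

theorem VV_card (n : ℕ) : (VV n).card ≤ 4 ^ n := by
  refine Finset.card_image_le.trans ?_
  simp

theorem gn_mem (v : ℝ) (n : ℕ) : gn v n ∈ VV n := by
  unfold VV
  rw [Finset.mem_image]
  refine ⟨fun k => ⟨(dig v k).toNat, ?_⟩, Finset.mem_univ _, ?_⟩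
  · have := dig_le v k
    have := dig_nonneg v k
    omega
  · unfold gn
    rw [Finset.sum_range]
    apply Finset.sum_congr rfl
    intro k _
    have h := dig_nonneg v k
    have h2 : (((dig v k).toNat : ℕ) : ℝ) = (dig v k : ℝ) := by
      have : (((dig v k).toNat : ℤ)) = dig v k := Int.toNat_of_nonneg h
      exact_mod_cast this
    simp only
    rw [h2]

theorem CC_cover (n : ℕ) : CC ⊆ ⋃ a ∈ VV n, Icc a (a + 3 / 7 * (1 / 8) ^ n) := by
  apply closure_minimal
  · rintro _ ⟨v, -, rfl⟩
    rw [mem_iUnion₂]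
    exact ⟨gn v n, gn_mem v n, g_ge v n, g_le v n⟩
  · exact (VV n).finite_toSet.isClosed_biUnion (fun a _ => isClosed_Icc)

theorem CC_vol : volume CC = 0 := by
  have hb : ∀ n : ℕ, volume CC ≤ ENNReal.ofReal ((1/2) ^ n) := by
    intro n
    calc volume CC ≤ volume (⋃ a ∈ VV n, Icc a (a + 3 / 7 * (1 / 8) ^ n)) :=
          measure_mono (CC_cover n)
      _ ≤ ∑ a ∈ VV n, volume (Icc a (a + 3 / 7 * (1 / 8) ^ n)) := measure_biUnion_finset_le _ _
      _ = ∑ a ∈ VV n, ENNReal.ofReal (3 / 7 * (1 / 8) ^ n) := by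
          apply Finset.sum_congr rfl
          intro a _
          rw [Real.volume_Icc]
          congr 1
          ring
      _ = (VV n).card * ENNReal.ofReal (3 / 7 * (1 / 8) ^ n) := by
          rw [Finset.sum_const, nsmul_eq_mul]
      _ ≤ ((4 ^ n : ℕ) : ENNReal) * ENNReal.ofReal (3 / 7 * (1 / 8) ^ n) := by
          gcongr
          exact_mod_cast VV_card n
      _ = ENNReal.ofReal (4 ^ n * (3 / 7 * (1 / 8) ^ n)) := by
          rw [ENNReal.ofReal_mul (show (0:ℝ) ≤ 4 ^ n by positivity)]
          congr 1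
          rw [← ENNReal.ofReal_natCast]
          push_cast
          rfl
      _ ≤ ENNReal.ofReal ((1/2) ^ n) := by
          apply ENNReal.ofReal_le_ofReal
          have : (4:ℝ) ^ n * (3 / 7 * (1 / 8) ^ n) = 3 / 7 * (1 / 2) ^ n := by
            have h1 : (4:ℝ)^n * (1/8)^n = (1/2)^n := by rw [← mul_pow]; norm_num
            rw [← h1]; ring
          rw [this]
          have : (0:ℝ) < (1/2)^n := by positivity
          linarith
  have hlim : Filter.Tendsto (fun n : ℕ => ENNReal.ofReal ((1/2 : ℝ) ^ n)) Filter.atTop (nhds 0) := by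
    have := (tendsto_pow_atTop_nhds_zero_of_lt_one (show (0:ℝ) ≤ 1/2 by norm_num)
      (by norm_num))
    have h2 := ENNReal.tendsto_ofReal this
    simpa using h2
  exact le_antisymm (ge_of_tendsto' hlim hb) bot_le

/-- the compact null set: parabolas `y = x² + c` with `c` in `CC` -/
def FF : Set Plane := {x | x 0 ∈ Icc (0:ℝ) 1 ∧ x 1 - (x 0) ^ 2 ∈ CC}

theorem FF_closed : IsClosed FF := by
  apply IsClosed.inter
  · exact isClosed_Icc.preimage (by fun_prop)
  · exact (isClosed_closure (s := g '' Ico 0 1)).preimage (by fun_prop)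

theorem FF_bdd : Bornology.IsBounded FF := by
  rw [isBounded_iff_forall_norm_le]
  refine ⟨3, fun x hx => ?_⟩
  have h1 := hx.1
  have h2 := CC_sub hx.2
  rw [EuclideanSpace.norm_eq, Fin.sum_univ_two, Real.sqrt_le_left (by norm_num)]
  simp only [Real.norm_eq_abs, sq_abs]
  obtain ⟨a1, a2⟩ := h1
  obtain ⟨b1, b2⟩ := h2
  have e1 : (x 0)^2 ≤ 1 := by nlinarith
  have e2 : x 1 ≤ 2 := by linarith
  have e3 : 0 ≤ x 1 := by nlinarith [sq_nonneg (x 0)]
  nlinarith

theorem FF_compact : IsCompact FF := Metric.isCompact_of_isClosed_isBounded FF_closed FF_bdd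

theorem FF_null : volume FF = 0 := by
  set T : Set (ℝ × ℝ) := {z | z.1 ∈ Icc (0:ℝ) 1 ∧ z.2 - z.1 ^ 2 ∈ CC} with hT
  have hTm : MeasurableSet T := by
    apply IsClosed.measurableSet
    apply IsClosed.inter
    · exact isClosed_Icc.preimage (by fun_prop)
    · exact (isClosed_closure (s := g '' Ico 0 1)).preimage (by fun_prop)
  have hvol : volume T = 0 := by
    rw [Measure.volume_eq_prod, Measure.prod_apply hTm]
    have : ∀ x : ℝ, volume (Prod.mk x ⁻¹' T) = 0 := by
      intro x
      have hsub : Prod.mk x ⁻¹' T ⊆ (fun y : ℝ => y - x ^ 2) ⁻¹' CC := fun y hy => hy.2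
      refine measure_mono_null hsub ?_
      have hc : NullMeasurableSet CC volume :=
        (isClosed_closure (s := g '' Ico 0 1)).measurableSet.nullMeasurableSet
      rw [(measurePreserving_sub_right volume (x ^ 2)).measure_preimage hc]
      exact CC_vol
    simp_rw [this]
    simp
  have hmp : MeasurePreserving (fun v : Plane => (v 0, v 1)) volume volume := by
    have h1 := PiLp.volume_preserving_ofLp (Fin 2)
    have h2 := volume_preserving_finTwoArrow ℝ
    exact h2.comp h1
  have hpre : FF = (fun v : Plane => (v 0, v 1)) ⁻¹' T := rfl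
  rw [hpre, hmp.measure_preimage hTm.nullMeasurableSet]
  exact hvol

/-- the strips of a covering of `FF` cannot have small total width -/
theorem FF_no_cover (E : Set Plane) (hE : FF ⊆ E) : ¬ HasStripCover E (1 / 448) := by
  rintro ⟨ι, hι, S, w, hS, hcov, hsum, hlt⟩
  choose hw u c hu hSu using hS
  have hunit : ∀ i, (u i 0) ^ 2 + (u i 1) ^ 2 = 1 := by
    intro i
    have h := hu i
    rw [EuclideanSpace.norm_eq, Fin.sum_univ_two, Real.sqrt_eq_one] at h
    simpa [Real.norm_eq_abs, sq_abs] using h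
  have hcov2 : Icc (0:ℝ) 1 ×ˢ Ico (0:ℝ) 1 ⊆ ⋃ i, Q (u i 0) (u i 1) (c i) (w i) := by
    rintro ⟨t, v⟩ ⟨ht, hv⟩
    have hmem : (!₂[t, t ^ 2 + g v] : Plane) ∈ FF := by
      refine ⟨by simpa using ht, ?_⟩
      have : (!₂[t, t ^ 2 + g v] : Plane) 1 - ((!₂[t, t ^ 2 + g v] : Plane) 0) ^ 2 = g v := by
        simp
      rw [this]
      exact subset_closure ⟨v, hv, rfl⟩
    obtain ⟨i, hi⟩ := mem_iUnion.1 (hcov (hE hmem))
    refine mem_iUnion.2 ⟨i, ⟨ht, hv, ?_⟩⟩
    rw [hSu i] at hi
    have hin : inner ℝ (u i) (!₂[t, t ^ 2 + g v] : Plane) = u i 0 * t + u i 1 * (t ^ 2 + g v) := by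
      simp [PiLp.inner_apply, Fin.sum_univ_two]
      ring
    rw [mem_ofPred_eq, hin] at hi
    exact hi
  have h1 : (1 : ENNReal) ≤ ∑' i, ENNReal.ofReal (448 * w i) := by
    calc (1 : ENNReal) = volume (Icc (0:ℝ) 1 ×ˢ Ico (0:ℝ) 1) := by
          rw [Measure.volume_eq_prod, Measure.prod_prod]; simp
      _ ≤ volume (⋃ i, Q (u i 0) (u i 1) (c i) (w i)) := measure_mono hcov2
      _ ≤ ∑' i, volume (Q (u i 0) (u i 1) (c i) (w i)) := measure_iUnion_le _
      _ ≤ ∑' i, ENNReal.ofReal (448 * w i) :=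
          ENNReal.tsum_le_tsum fun i => Q_vol _ _ _ _ (hw i) (hunit i)
  have h2 : ∑' i, ENNReal.ofReal (448 * w i) = ENNReal.ofReal (448 * ∑' i, w i) := by
    rw [← tsum_mul_left, ENNReal.ofReal_tsum_of_nonneg]
    · intro i
      have := hw i
      positivity
    · exact hsum.mul_left 448
  rw [h2, ENNReal.one_le_ofReal] at h1
  linarith

/-- **Negative answer to Rogers' question Q1.** There are `ε > 0` and a compact set `F` such that for
every Besicovitch set `B` (and there are Besicovitch sets) the set `B ∪ F` is again a Besicovitch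
set, and the strips of every strip covering of `B ∪ F` have total width at least `ε`. -/
theorem result : ∃ ε : ℝ, 0 < ε ∧ ∃ F : Set Plane, IsCompact F ∧ (∃ B : Set Plane, IsBesicovitch B) ∧
    ∀ B : Set Plane, IsBesicovitch B → IsBesicovitch (B ∪ F) ∧ ¬ HasStripCover (B ∪ F) ε := by
  refine ⟨1 / 448, by norm_num, FF, FF_compact, ?_, ?_⟩
  · obtain ⟨B, hB, -⟩ := Pool.Agent.Results.MP_6b55e5_an.RogersQ2.result
    exact ⟨B, hB⟩
  · intro B hB
    refine ⟨⟨hB.1.union FF_bdd, measure_union_null hB.2.1 FF_null, fun e he => ?_⟩,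
      FF_no_cover _ subset_union_right⟩
    obtain ⟨x, hx⟩ := hB.2.2 e he
    exact ⟨x, hx.trans subset_union_left⟩

end Pool.Agent.Results.MP_6b55e5_an.RogersQ1
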